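import Mathlib
import Pool.Agent.Helper355.BrunLow
import Pool.Agent.U839.Hl.Brun

set_option autoImplicit false

/-! # Brun's pure sieve with growing dimension, general form -/

open Filter Finset Topology

namespace Pool.Agent.U839.Cc

open Pool.Agent.Helper742 (mean)

/-- the number of integers which avoid at most `κ` classes modulo each prime of `R` -/
theorem sieve_gen (R : Finset ℕ) (y t' : ℕ) (ht' : 1 ≤ t') (hRp : ∀ p ∈ R, p.Prime ∧ y < p ∧ p ≤ t')
    (G : ℕ → ℕ → Prop) (hper : ∀ p ∈ R, ∀ n, G p (n % p) ↔ G p n) (κ : ℕ)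
    (hκ : ∀ p ∈ R, {j | j < p ∧ G p j}.ncard ≤ κ)
    (B lam : ℝ) (hB : 0 ≤ B) (hsum : ∑ p ∈ R, 1 / (p : ℝ) ≤ B)
    (hlam : lam = κ * B) (hy : 2 * (κ : ℝ) ≤ y) (N : ℕ) :
    (N : ℝ) * (Real.exp (-(2 * lam)) / 2) - 3 * Real.exp ((12 * lam + 8) * Real.log t') ≤
      ({j | j < N ∧ ∀ p ∈ R, ¬ G p j}.ncard : ℝ) := by
  classical
  obtain ⟨u, hu⟩ : ∃ u : ℕ → ℕ → ℝ, u = fun p j => if G p j then (1 : ℝ) else 0 := ⟨_, rfl⟩
  have hlam0 : 0 ≤ lam := by rw [hlam]; positivity
  have hmean : ∀ p ∈ R, mean u p ≤ κ / p := by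
    intro p hp
    have hp0 : (0 : ℝ) < p := by exact_mod_cast (hRp p hp).1.pos
    unfold mean
    apply div_le_div_of_nonneg_right _ hp0.le
    rw [hu]
    simp only
    rw [← sum_filter, sum_const, nsmul_eq_mul, mul_one]
    have h1 : (((range p).filter (fun j => G p j) : Finset ℕ) : Set ℕ) = {j | j < p ∧ G p j} := by
      ext j
      simp
    have h2 := hκ p hp
    rw [← h1, Set.ncard_coe_finset] at h2
    exact_mod_cast h2
  have hmean0 : ∀ p ∈ R, 0 ≤ mean u p := by
    intro p hp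
    unfold mean
    apply div_nonneg _ (Nat.cast_nonneg _)
    apply sum_nonneg
    intro j _
    rw [hu]
    simp only
    split_ifs <;> norm_num
  have hhalf : ∀ p ∈ R, (κ : ℝ) / p ≤ 1 / 2 := by
    intro p hp
    have h1 : (y : ℝ) ≤ p := by exact_mod_cast (hRp p hp).2.1.le
    have h0 : (0 : ℝ) < p := by exact_mod_cast (hRp p hp).1.pos
    rw [div_le_div_iff₀ h0 (by norm_num)]
    linarith
  have hms : ∑ p ∈ R, mean u p ≤ lam := by
    calc ∑ p ∈ R, mean u p ≤ ∑ p ∈ R, (κ : ℝ) / p := sum_le_sum hmean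
      _ = κ * ∑ p ∈ R, 1 / (p : ℝ) := by
          rw [mul_sum]
          apply sum_congr rfl
          intro p _
          ring
      _ ≤ κ * B := by gcongr
      _ = lam := hlam.symm
  have hprod : Real.exp (-(2 * lam)) ≤ ∏ p ∈ R, (1 - mean u p) := by
    have h1 : ∀ p ∈ R, Real.exp (-(2 * (mean u p))) ≤ 1 - mean u p := by
      intro p hp
      have h2 := (hmean p hp).trans (hhalf p hp)
      have h3 := hmean0 p hp
      have h4 : (1 - mean u p) * (1 + 2 * mean u p) ≥ 1 := by nlinarith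
      have h5 : 1 + 2 * mean u p ≤ Real.exp (2 * mean u p) := by
        have := Real.add_one_le_exp (2 * mean u p)
        linarith
      rw [Real.exp_neg, inv_le_comm₀ (Real.exp_pos _) (by linarith), ← one_div, div_le_iff₀ (by linarith)]
      nlinarith
    calc Real.exp (-(2 * lam)) ≤ Real.exp (-(2 * ∑ p ∈ R, mean u p)) := by
          apply Real.exp_le_exp.2
          linarith
      _ = ∏ p ∈ R, Real.exp (-(2 * mean u p)) := by
          rw [← Real.exp_sum]
          congr 1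
          rw [mul_sum, ← sum_neg_distrib]
      _ ≤ _ := prod_le_prod (fun _ _ => (Real.exp_pos _).le) h1
  obtain ⟨r, hr⟩ : ∃ r : ℕ, r = 2 * (⌈3 * lam⌉₊ + 1) := ⟨_, rfl⟩
  have hr1 : 6 * lam + 2 ≤ r := by
    rw [hr]
    push_cast
    have := Nat.le_ceil (3 * lam)
    linarith
  have hr2 : (r : ℝ) ≤ 6 * lam + 4 := by
    rw [hr]
    push_cast
    have := Nat.ceil_lt_add_one (show 0 ≤ 3 * lam by positivity)
    linarith
  have hmain := Pool.Agent.Helper355.Run.brun_low R t' r ht' ⟨⌈3 * lam⌉₊ + 1, by rw [hr]; ring⟩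
    (fun p hp => ⟨(hRp p hp).1, (hRp p hp).2.2⟩) u
    (fun p _ n => by rw [hu]; simp only; split_ifs <;> norm_num)
    (fun p _ n => by rw [hu]; simp only; split_ifs <;> norm_num)
    (fun p hp n => by
      rw [hu]
      simp only [hper p hp n]) (Real.exp 1) (Real.exp_pos 1) N
  have hE : ((Real.exp 1)⁻¹) ^ r * Real.exp (Real.exp 1 * ∑ p ∈ R, mean u p) ≤ Real.exp (-(2 * lam)) / 2 := by
    have he : Real.exp 1 ≤ 3 := by
      have := Real.exp_one_lt_d9
      linarith
    have h1 : ((Real.exp 1)⁻¹) ^ r = Real.exp (-(r : ℝ)) := by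
      rw [← Real.exp_neg, ← Real.exp_nat_mul]
      congr 1
      ring
    have h2 : Real.exp 1 * ∑ p ∈ R, mean u p ≤ 3 * lam := by
      have h3 : 0 ≤ ∑ p ∈ R, mean u p := sum_nonneg hmean0
      calc Real.exp 1 * ∑ p ∈ R, mean u p ≤ 3 * ∑ p ∈ R, mean u p := by gcongr
        _ ≤ 3 * lam := by gcongr
    rw [h1, ← Real.exp_add]
    have h4 : Real.exp (-(r : ℝ) + Real.exp 1 * ∑ p ∈ R, mean u p) ≤ Real.exp (-(2 * lam) + -1) := by
      apply Real.exp_le_exp.2
      linarith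
    refine h4.trans ?_
    rw [Real.exp_add, div_eq_mul_inv]
    apply mul_le_mul_of_nonneg_left _ (Real.exp_pos _).le
    rw [Real.exp_neg]
    apply inv_anti₀ (by norm_num)
    have := Real.add_one_le_exp (1 : ℝ)
    linarith
  have hpw : 3 * (t' : ℝ) ^ (2 * r) ≤ 3 * Real.exp ((12 * lam + 8) * Real.log t') := by
    have ht0 : (0 : ℝ) < t' := by exact_mod_cast ht'
    have hl : 0 ≤ Real.log t' := Real.log_natCast_nonneg _
    rw [← Real.rpow_natCast, Real.rpow_def_of_pos ht0, mul_comm (Real.log (t' : ℝ))]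
    push_cast
    gcongr
    linarith
  have hsumeq : ∑ n ∈ range N, ∏ p ∈ R, (1 - u p n) =
      ({j | j < N ∧ ∀ p ∈ R, ¬ G p j}.ncard : ℝ) := by
    have h1 : (((range N).filter (fun j => ∀ p ∈ R, ¬ G p j) : Finset ℕ) : Set ℕ) =
        {j | j < N ∧ ∀ p ∈ R, ¬ G p j} := by
      ext j
      simp
    rw [← h1, Set.ncard_coe_finset, card_eq_sum_ones, Nat.cast_sum, sum_filter]
    apply sum_congr rfl
    intro j _
    rw [hu]
    simp only [Nat.cast_one]
    split_ifs with h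
    · apply prod_eq_one
      intro p hp
      rw [if_neg (h p hp), sub_zero]
    · push Not at h
      obtain ⟨p, hp, hd⟩ := h
      apply prod_eq_zero hp
      rw [if_pos hd, sub_self]
  rw [hsumeq] at hmain
  have hN0 : (0 : ℝ) ≤ N := Nat.cast_nonneg _
  have h7 : (N : ℝ) * (Real.exp (-(2 * lam)) / 2) ≤
      N * (∏ p ∈ R, (1 - mean u p) - ((Real.exp 1)⁻¹) ^ r * Real.exp (Real.exp 1 * ∑ p ∈ R, mean u p)) := by
    gcongr
    linarith
  linarith

end Pool.Agent.U839.Cc
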