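import Mathlib
import Pool.Agent.U839.Cc.Sieve
import Pool.Agent.U839.Hl.Cnd

set_option autoImplicit false

/-! # Candidates for Cunningham chains -/

open Filter Finset Topology

namespace Pool.Agent.U839.Cc

open Pool.Agent.U839.Thin (tlog)
open Pool.Agent.U839.Fb (tloglog)
open Pool.Agent.U839.Sv (W W_pos W_mono)
open Pool.Agent.U839.Ru (dvd_prim prim_cop mul_exp)
open Pool.Agent.U839.Hl (start sum_inv)

/-- the `i`-th term of the chain of kind `s` given by `a` (`false`: first kind, starting with `a - 1`;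
`true`: second kind, starting with `a + 1`) -/
def tm (s : Bool) (i a : ℕ) : ℕ := if s then 2 ^ i * a + 1 else 2 ^ i * a - 1

/-- Mertens' theorem -/
theorem W_asymp (η : ℝ) (hη : 0 < η) : ∀ᶠ N : ℕ in atTop,
    (1 - η) * Real.exp Real.eulerMascheroniConstant * Real.log N ≤ W N ∧
    W N ≤ (1 + η) * Real.exp Real.eulerMascheroniConstant * Real.log N := by
  have h := Pool.Agent.H305R2.mertens_three
  have h0 : ∀ N : ℕ, (∏ p ∈ (Finset.Icc 1 N).filter Nat.Prime, (1 - (p : ℝ)⁻¹)⁻¹) = W N := by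
    intro N
    unfold W
    simp only [one_div]
  simp only [h0] at h
  have he := Real.exp_pos Real.eulerMascheroniConstant
  filter_upwards [h.eventually (gt_mem_nhds (show Real.exp Real.eulerMascheroniConstant <
    (1 + η) * Real.exp Real.eulerMascheroniConstant by nlinarith)),
    h.eventually (lt_mem_nhds (show (1 - η) * Real.exp Real.eulerMascheroniConstant <
    Real.exp Real.eulerMascheroniConstant by nlinarith)), tlog.eventually_gt_atTop 0] with N g1 g2 g3
  rw [div_lt_iff₀ g3] at g1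
  rw [lt_div_iff₀ g3] at g2
  exact ⟨g2.le, g1.le⟩

/-- the sum of `1/p` over `⌊δ log x⌋ < p ≤ (3 log x)^θ` -/
theorem sum_small (θ : ℝ) (hθ : 1 ≤ θ) (δ : ℝ) (hδ : 0 < δ) (hδ1 : δ ≤ 1 / 100) : ∀ᶠ x : ℕ in atTop,
    ∀ t : ℕ, (t : ℝ) ≤ (3 * Real.log x) ^ θ →
    ∑ p ∈ (Ioc ⌊δ * Real.log x⌋₊ t).filter Nat.Prime, 1 / (p : ℝ) ≤ Real.log θ + 8 * δ := by
  have hy : Tendsto (fun X : ℕ => ⌊δ * Real.log X⌋₊) atTop atTop :=
    tendsto_nat_floor_atTop.comp (tlog.const_mul_atTop hδ)
  obtain ⟨y₀, hy₀⟩ := eventually_atTop.1 (W_asymp δ hδ)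
  filter_upwards [hy.eventually_ge_atTop (y₀ + 2), tlog.eventually_ge_atTop (2 / δ),
    tloglog.eventually_ge_atTop ((Real.log 3 + Real.log (2 / δ)) / δ + 1)] with x g1 g2 g3 t ht
  obtain ⟨L, hL⟩ : ∃ L, L = Real.log x := ⟨_, rfl⟩
  rw [← hL] at g1 g2 g3 ht ⊢
  obtain ⟨y, hy'⟩ : ∃ y, y = ⌊δ * L⌋₊ := ⟨_, rfl⟩
  rw [← hy'] at g1 ⊢
  have hθ0 : 0 ≤ Real.log θ := Real.log_nonneg hθ
  rcases sum_inv y t with h | h
  swap
  · rw [Finset.Ioc_eq_empty (by omega), filter_empty, sum_empty]
    linarith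
  rcases Nat.lt_or_ge t y with hty | hty
  · rw [Finset.Ioc_eq_empty (by omega), filter_empty, sum_empty]
    linarith
  refine h.trans ?_
  have hL0 : 0 < L := by
    have : (0 : ℝ) < 2 / δ := by positivity
    linarith
  obtain ⟨w1, -⟩ := hy₀ y (by omega)
  obtain ⟨-, w2⟩ := hy₀ t (by omega)
  have he := Real.exp_pos Real.eulerMascheroniConstant
  have hy2 : (2 : ℝ) ≤ y := by exact_mod_cast (by omega : 2 ≤ y)
  have hly0 : 0 < Real.log y := Real.log_pos (by linarith)
  have hlt0 : 0 ≤ Real.log t := Real.log_natCast_nonneg _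
  have hyL : δ * L / 2 ≤ y := by
    have h1 := Nat.lt_floor_add_one (δ * L)
    rw [← hy'] at h1
    have h2 : 2 ≤ δ * L := by
      calc (2 : ℝ) = δ * (2 / δ) := by field_simp
        _ ≤ δ * L := by gcongr
    linarith
  have hlogy : Real.log L - Real.log (2 / δ) ≤ Real.log y := by
    have h1 := Real.log_le_log (by positivity) hyL
    have h2 : Real.log (δ * L / 2) = Real.log L - Real.log (2 / δ) := by
      rw [← Real.log_div hL0.ne' (by positivity)]
      congr 1
      field_simp
    linarith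
  have hl3 : 0 ≤ Real.log 3 := Real.log_nonneg (by norm_num)
  have hl2δ : 0 ≤ Real.log (2 / δ) := Real.log_nonneg (by
    rw [le_div_iff₀ hδ]
    linarith)
  have hu : Real.log 3 + Real.log (2 / δ) ≤ δ * Real.log L := by
    have h1 : (Real.log 3 + Real.log (2 / δ)) / δ * δ ≤ Real.log L * δ := by
      gcongr
      linarith
    rw [div_mul_cancel₀ _ hδ.ne'] at h1
    linarith
  have hu1 : 1 ≤ Real.log L := by
    have : 0 ≤ (Real.log 3 + Real.log (2 / δ)) / δ := by positivity
    linarith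
  have hlogy1 : (1 - δ) * Real.log L ≤ Real.log y := by linarith
  have hlogt : Real.log t ≤ θ * ((1 + δ) * Real.log L) := by
    rcases Nat.eq_zero_or_pos t with h0 | h0
    · omega
    · have h1 := Real.log_le_log (by exact_mod_cast h0) ht
      rw [Real.log_rpow (by positivity), Real.log_mul (by norm_num) hL0.ne'] at h1
      refine h1.trans ?_
      gcongr
      linarith
  have hratio : W t / W y ≤ θ * (1 + 8 * δ) := by
    rw [div_le_iff₀ (W_pos y)]
    have hw3 : (1 - δ) * Real.exp Real.eulerMascheroniConstant * ((1 - δ) * Real.log L) ≤ W y := by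
      refine le_trans ?_ w1
      apply mul_le_mul_of_nonneg_left hlogy1
      exact mul_nonneg (by linarith) he.le
    have hw4 : W t ≤ (1 + δ) * Real.exp Real.eulerMascheroniConstant * (θ * ((1 + δ) * Real.log L)) := by
      refine w2.trans ?_
      apply mul_le_mul_of_nonneg_left hlogt
      exact mul_nonneg (by linarith) he.le
    have hineq : (1 + δ) * (1 + δ) ≤ (1 + 8 * δ) * ((1 - δ) * (1 - δ)) := by nlinarith [sq_nonneg δ]
    calc W t ≤ (1 + δ) * Real.exp Real.eulerMascheroniConstant * (θ * ((1 + δ) * Real.log L)) := hw4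
      _ = ((1 + δ) * (1 + δ)) * (θ * (Real.exp Real.eulerMascheroniConstant * Real.log L)) := by ring
      _ ≤ ((1 + 8 * δ) * ((1 - δ) * (1 - δ))) * (θ * (Real.exp Real.eulerMascheroniConstant * Real.log L)) := by
          apply mul_le_mul_of_nonneg_right hineq
          positivity
      _ = θ * (1 + 8 * δ) * ((1 - δ) * Real.exp Real.eulerMascheroniConstant * ((1 - δ) * Real.log L)) := by ring
      _ ≤ θ * (1 + 8 * δ) * W y := by gcongr
  have h1 := Real.log_le_log (div_pos (W_pos t) (W_pos y)) hratio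
  rw [Real.log_mul (by linarith) (by positivity)] at h1
  have h2 := Real.log_le_sub_one_of_pos (show (0 : ℝ) < 1 + 8 * δ by positivity)
  linarith

end Pool.Agent.U839.Cc
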