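import Mathlib
import Pool.Agent.U839.Cc.Cand

set_option autoImplicit false

/-! # Candidates for Cunningham chains: the sieve -/

open Filter Finset Topology

namespace Pool.Agent.U839.Cc

open Pool.Agent.U839.Thin (tlog)
open Pool.Agent.U839.Fb (tloglog)
open Pool.Agent.U839.Ru (dvd_prim prim_cop mul_exp)
open Pool.Agent.U839.Hl (start)

/-- at most `k` classes modulo `p` -/
theorem classes (M n₀ p k e : ℕ) (hp : p.Prime) (hp2 : p ≠ 2) (hM : Nat.Coprime M p) :
    {j | j < p ∧ ∃ i < k, p ∣ 2 ^ i * (n₀ + M * j) + e}.ncard ≤ k := by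
  classical
  obtain ⟨F, hF⟩ : ∃ F : ℕ → Finset ℕ, F = fun i => (range p).filter (fun j => p ∣ 2 ^ i * (n₀ + M * j) + e) :=
    ⟨_, rfl⟩
  have h1 : {j | j < p ∧ ∃ i < k, p ∣ 2 ^ i * (n₀ + M * j) + e} = (((range k).biUnion F : Finset ℕ) : Set ℕ) := by
    ext j
    rw [hF]
    simp only [Set.mem_ofPred_eq, Finset.coe_biUnion, Finset.coe_range, Set.mem_Iio, Finset.coe_filter,
      Set.mem_iUnion, Finset.mem_range, exists_prop]
    constructor
    · rintro ⟨h1, i, h2, h3⟩
      exact ⟨i, h2, h1, h3⟩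
    · rintro ⟨i, h2, h1, h3⟩
      exact ⟨h1, i, h2, h3⟩
  rw [h1, Set.ncard_coe_finset]
  have h2 : ((range k).biUnion F).card ≤ (range k).card * 1 := by
    apply card_biUnion_le_card_mul
    intro i _
    rw [card_le_one]
    intro a ha b hb
    rw [hF] at ha hb
    simp only [mem_filter, mem_range] at ha hb
    have h3 : 2 ^ i * (n₀ + M * a) + e ≡ 2 ^ i * (n₀ + M * b) + e [MOD p] :=
      (Nat.modEq_zero_iff_dvd.2 ha.2).trans (Nat.modEq_zero_iff_dvd.2 hb.2).symm
    have h4 := Nat.ModEq.add_right_cancel' _ h3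
    have hc2 : Nat.gcd p (2 ^ i) = 1 := by
      apply Nat.Coprime.pow_right
      rw [Nat.coprime_primes hp Nat.prime_two]
      exact hp2
    have h5 := Nat.ModEq.cancel_left_of_coprime hc2 h4
    have h6 := Nat.ModEq.add_left_cancel' _ h5
    have h7 := Nat.ModEq.cancel_left_of_coprime (by rw [Nat.gcd_comm]; exact hM) h6
    unfold Nat.ModEq at h7
    rwa [Nat.mod_eq_of_lt ha.1, Nat.mod_eq_of_lt hb.1] at h7
  rwa [card_range, mul_one] at h2

/-- divisibility of the terms -/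
theorem dvd_tm (s : Bool) (i a p : ℕ) (hp : 0 < p) (ha : 0 < a) :
    p ∣ tm s i a ↔ p ∣ 2 ^ i * a + (if s then 1 else p - 1) := by
  have h0 : 0 < 2 ^ i * a := by positivity
  unfold tm
  cases s
  · simp only [Bool.false_eq_true, if_false]
    have h1 : 2 ^ i * a + (p - 1) = (2 ^ i * a - 1) + p := by omega
    rw [h1]
    exact (Nat.dvd_add_self_right).symm
  · simp

/-- the candidates -/
theorem cand (θ : ℝ) (hθ : 1 ≤ θ) (δ : ℝ) (hδ : 0 < δ) (hδ1 : δ ≤ 1 / 100) (c : ℝ) (hc : 0 < c)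
    (hcond : 24 * (Real.log θ + 8 * δ) * θ * c ≤ 1 / 4) : ∀ᶠ x : ℕ in atTop,
    ∀ t : ℕ, (t : ℝ) ≤ (3 * Real.log x) ^ θ → ∀ k : ℕ, (k : ℝ) * Real.log (Real.log x) ≤ c * Real.log x →
    ∀ s : Bool, ∃ S : Finset ℕ, S ⊆ Ioc x (x + x) ∧
      (∀ a ∈ S, ∀ i < k, ∀ p, p.Prime → p ≤ t → ¬ p ∣ tm s i a) ∧
      Real.exp ((1 - 3 * δ) * Real.log x) ≤ S.card := by
  classical
  obtain ⟨B, hB⟩ : ∃ B, B = Real.log θ + 8 * δ := ⟨_, rfl⟩
  have hB0 : 0 < B := by
    rw [hB]
    have := Real.log_nonneg hθ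
    positivity
  rw [← hB] at hcond
  filter_upwards [sum_small θ hθ δ hδ hδ1, tlog.eventually_ge_atTop (1000 / δ),
    tloglog.eventually_ge_atTop (4 * B * c / δ + 4 * c / δ + 10), tloglog.eventually (mul_exp (1000 * θ) 1 one_pos)]
    with x g1 g2 g3 g4 t ht k hk s
  obtain ⟨L, hL⟩ : ∃ L, L = Real.log x := ⟨_, rfl⟩
  obtain ⟨u, hu⟩ : ∃ u, u = Real.log L := ⟨_, rfl⟩
  rw [← hL] at g1 g2 g3 g4 ht hk ⊢
  rw [← hu] at g3 g4 hk
  have hδL : 1000 ≤ δ * L := by
    calc (1000 : ℝ) = δ * (1000 / δ) := by field_simp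
      _ ≤ δ * L := by gcongr
  have hL0 : 0 < L := by
    have : (0 : ℝ) < 1000 / δ := by positivity
    linarith
  have hL1 : 100000 ≤ L := by nlinarith
  have hx0 : (0 : ℝ) < x := by
    rcases Nat.eq_zero_or_pos x with h | h
    · rw [h, Nat.cast_zero, Real.log_zero] at hL
      linarith
    · exact_mod_cast h
  have hxL : (x : ℝ) = Real.exp L := by rw [hL, Real.exp_log hx0]
  rw [one_mul, hu, Real.exp_log hL0, ← hu] at g4
  have hu10 : 10 ≤ u := by
    have : 0 ≤ 4 * B * c / δ := by positivity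
    have : 0 ≤ 4 * c / δ := by positivity
    linarith
  -- `k` is small
  have hk1 : (4 * B) * (k : ℝ) ≤ δ * L := by
    have h1 : 4 * B * c ≤ δ * u := by
      have h2 : 4 * B * c / δ ≤ u := by
        have : 0 ≤ 4 * c / δ := by positivity
        linarith
      rw [div_le_iff₀ hδ] at h2
      linarith
    have h3 : (4 * B) * (k : ℝ) * u ≤ δ * L * u := by
      calc (4 * B) * (k : ℝ) * u = (4 * B) * (k * u) := by ring
        _ ≤ (4 * B) * (c * L) := by gcongr
        _ = (4 * B * c) * L := by ring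
        _ ≤ (δ * u) * L := by gcongr
        _ = δ * L * u := by ring
    exact le_of_mul_le_mul_right h3 (by linarith)
  have hk2 : 4 * (k : ℝ) ≤ δ * L := by
    have h1 : 4 * c ≤ δ * u := by
      have h2 : 4 * c / δ ≤ u := by
        have : 0 ≤ 4 * B * c / δ := by positivity
        linarith
      rw [div_le_iff₀ hδ] at h2
      linarith
    have h3 : 4 * (k : ℝ) * u ≤ δ * L * u := by
      calc 4 * (k : ℝ) * u = 4 * (k * u) := by ring
        _ ≤ 4 * (c * L) := by gcongr
        _ = (4 * c) * L := by ring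
        _ ≤ (δ * u) * L := by gcongr
        _ = δ * L * u := by ring
    exact le_of_mul_le_mul_right h3 (by linarith)
  -- the modulus
  obtain ⟨y, hy⟩ : ∃ y, y = ⌊δ * L⌋₊ := ⟨_, rfl⟩
  have hy1 : (y : ℝ) ≤ δ * L := by rw [hy]; exact Nat.floor_le (by positivity)
  have hy2 : δ * L - 1 < y := by
    rw [hy]
    have := Nat.lt_floor_add_one (δ * L)
    linarith
  have hy3 : 2 ≤ y := by
    have : (2 : ℝ) ≤ y := by linarith
    exact_mod_cast this
  obtain ⟨M, hM⟩ : ∃ M, M = primorial y := ⟨_, rfl⟩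
  have hMp : 0 < M := by rw [hM]; exact primorial_pos y
  have hM0 : (0 : ℝ) < M := by exact_mod_cast hMp
  have hMX : (M : ℝ) ≤ Real.exp (3 / 2 * δ * L) := by
    have h1 : (M : ℝ) ≤ (4 : ℝ) ^ y := by
      rw [hM]
      exact_mod_cast primorial_le_four_pow y
    refine h1.trans ?_
    rw [← Real.rpow_natCast, Real.rpow_def_of_pos (by norm_num)]
    apply Real.exp_le_exp.2
    have h4 : Real.log 4 ≤ 3 / 2 := by
      rw [show (4 : ℝ) = 2 ^ 2 by norm_num, Real.log_pow]
      have := Real.log_two_lt_d9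
      push_cast
      linarith
    have h5 : 0 ≤ Real.log 4 := Real.log_nonneg (by norm_num)
    calc Real.log 4 * y ≤ 3 / 2 * (δ * L) := by gcongr
      _ = 3 / 2 * δ * L := by ring
  obtain ⟨n₀, hn1, hn2, hn3⟩ := start x M 0 hMp
  have hMn : M ∣ n₀ := (Nat.modEq_zero_iff_dvd).1 hn3
  obtain ⟨N, hN⟩ : ∃ N, N = x / M := ⟨_, rfl⟩
  have hNM : N * M ≤ x := by rw [hN]; exact Nat.div_mul_le_self x M
  have hN1 : Real.exp ((1 - 3 / 2 * δ) * L) - 1 ≤ N := by
    have h1 : (x : ℝ) < ((N : ℝ) + 1) * M := by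
      have h2 : x < (N + 1) * M := by
        have h3 := Nat.div_add_mod x M
        have h4 := Nat.mod_lt x hMp
        rw [hN]
        calc x = M * (x / M) + x % M := h3.symm
          _ < M * (x / M) + M := by omega
          _ = (x / M + 1) * M := by ring
      exact_mod_cast h2
    have h3 : Real.exp ((1 - 3 / 2 * δ) * L) * Real.exp (3 / 2 * δ * L) = x := by
      rw [← Real.exp_add, hxL]
      congr 1
      ring
    have h4 : Real.exp ((1 - 3 / 2 * δ) * L) * Real.exp (3 / 2 * δ * L) ≤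
        ((N : ℝ) + 1) * Real.exp (3 / 2 * δ * L) := by
      rw [h3]
      refine h1.le.trans ?_
      gcongr
    have h5 := le_of_mul_le_mul_right h4 (Real.exp_pos _)
    linarith
  -- the sieve
  obtain ⟨R, hR⟩ : ∃ R, R = (Ioc y t).filter Nat.Prime := ⟨_, rfl⟩
  have hRp : ∀ p ∈ R, p.Prime ∧ y < p ∧ p ≤ max t 1 := by
    intro p hp
    rw [hR, mem_filter, mem_Ioc] at hp
    exact ⟨hp.2, hp.1.1, hp.1.2.trans (le_max_left _ _)⟩
  obtain ⟨G, hG⟩ : ∃ G : ℕ → ℕ → Prop, G = fun p j => ∃ i < k, p ∣ 2 ^ i * (n₀ + M * j) + (if s then 1 else p - 1) :=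
    ⟨_, rfl⟩
  have hsum : ∑ p ∈ R, 1 / (p : ℝ) ≤ B := by
    rw [hR, hB, hy]
    exact g1 t ht
  have hlam0 : (0 : ℝ) ≤ k * B := by positivity
  have hmain := Pool.Agent.U839.Cc.sieve_gen R y (max t 1) (le_max_right _ _) hRp G
    (fun p hp n => by
      rw [hG]
      simp only
      have h1 : ∀ i e, (p ∣ 2 ^ i * (n₀ + M * (n % p)) + e ↔ p ∣ 2 ^ i * (n₀ + M * n) + e) := by
        intro i e
        have h2 : 2 ^ i * (n₀ + M * (n % p)) + e ≡ 2 ^ i * (n₀ + M * n) + e [MOD p] :=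
          ((((Nat.mod_modEq n p).mul_left M).add_left n₀).mul_left (2 ^ i)).add_right e
        exact h2.dvd_iff dvd_rfl
      simp only [h1]) k
    (fun p hp => by
      rw [hG]
      simp only
      exact classes M n₀ p k _ (hRp p hp).1 (by have := (hRp p hp).2.1; omega)
        (by rw [hM]; exact prim_cop (hRp p hp).1 (hRp p hp).2.1)) B (k * B) hB0.le hsum rfl
    (by linarith) N
  obtain ⟨J, hJ⟩ : ∃ J : Finset ℕ, J = (range N).filter (fun j => ∀ p ∈ R, ¬ G p j) := ⟨_, rfl⟩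
  have hJc : {j | j < N ∧ ∀ p ∈ R, ¬ G p j} = (J : Set ℕ) := by
    rw [hJ]
    ext j
    simp
  rw [hJc, Set.ncard_coe_finset] at hmain
  have hexp : (12 * (k * B) + 8) * Real.log ((max t 1 : ℕ) : ℝ) ≤ L * (3 / 4) := by
    have hlt' : Real.log ((max t 1 : ℕ) : ℝ) ≤ θ * (2 * u) := by
      have h0 : (1 : ℝ) ≤ (3 * L) ^ θ := Real.one_le_rpow (by linarith) (by linarith)
      have h1 : ((max t 1 : ℕ) : ℝ) ≤ (3 * L) ^ θ := by
        push_cast
        exact max_le ht h0
      have h2 : (0 : ℝ) < ((max t 1 : ℕ) : ℝ) := by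
        have : 0 < max t 1 := by omega
        exact_mod_cast this
      have h3 := Real.log_le_log h2 h1
      rw [Real.log_rpow (by positivity), Real.log_mul (by norm_num) hL0.ne', ← hu] at h3
      have h4 : Real.log 3 ≤ 2 := by
        have := Real.log_le_sub_one_of_pos (show (0 : ℝ) < 3 by norm_num)
        linarith
      refine h3.trans ?_
      gcongr
      linarith
    have h1 : (12 * (k * B) + 8) * Real.log ((max t 1 : ℕ) : ℝ) ≤ (12 * (k * B) + 8) * (θ * (2 * u)) := by gcongr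
    have h2 : 12 * (k * B) * (θ * (2 * u)) ≤ L / 4 := by
      calc 12 * (k * B) * (θ * (2 * u)) = 24 * B * θ * (k * u) := by ring
        _ ≤ 24 * B * θ * (c * L) := by gcongr
        _ = (24 * B * θ * c) * L := by ring
        _ ≤ (1 / 4) * L := by gcongr
        _ = L / 4 := by ring
    have h3 : 8 * (θ * (2 * u)) ≤ L / 4 := by linarith
    linarith
  refine ⟨J.image (fun j => n₀ + M * j), ?_, ?_, ?_⟩
  · intro n hn
    rw [mem_image] at hn
    obtain ⟨j, hj, rfl⟩ := hn
    rw [hJ, mem_filter, mem_range] at hj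
    rw [mem_Ioc]
    refine ⟨by omega, ?_⟩
    have h1 : M * j + M ≤ M * N := by
      have : j + 1 ≤ N := hj.1
      calc M * j + M = M * (j + 1) := by ring
        _ ≤ M * N := Nat.mul_le_mul_left M this
    have h2 : M * N ≤ x := by rw [mul_comm]; exact hNM
    omega
  · intro n hn i hi p hp hpt hdvd
    rw [mem_image] at hn
    obtain ⟨j, hj, rfl⟩ := hn
    rw [hJ, mem_filter] at hj
    rcases Nat.lt_or_ge y p with h | h
    · apply hj.2 p (by rw [hR, mem_filter, mem_Ioc]; exact ⟨⟨h, hpt⟩, hp⟩)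
      rw [hG]
      exact ⟨i, hi, (dvd_tm s i _ p hp.pos (by omega)).1 hdvd⟩
    · have h1 : p ∣ n₀ + M * j := by
        have h2 : p ∣ M := by rw [hM]; exact dvd_prim hp h
        exact Dvd.dvd.add (h2.trans hMn) (h2.mul_right j)
      have h3 : p ∣ 2 ^ i * (n₀ + M * j) := h1.mul_left _
      have hpos : 0 < 2 ^ i * (n₀ + M * j) := by
        have : 0 < n₀ + M * j := by omega
        positivity
      have h4 : p ∣ 1 := by
        unfold tm at hdvd
        cases s
        · simp only [Bool.false_eq_true, if_false] at hdvd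
          have h5 : p ∣ (2 ^ i * (n₀ + M * j) - 1) + 1 := by
            rw [Nat.sub_add_cancel hpos]
            exact h3
          exact (Nat.dvd_add_right hdvd).1 h5
        · simp only [if_true] at hdvd
          exact (Nat.dvd_add_right h3).1 hdvd
      exact hp.one_lt.ne' (Nat.dvd_one.1 h4)
  · rw [card_image_of_injective _ (fun i j hij => by
      have h1 : M * i = M * j := Nat.add_left_cancel hij
      exact Nat.eq_of_mul_eq_mul_left hMp h1)]
    refine le_trans ?_ hmain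
    have e1 : Real.exp (-(δ * L / 2)) ≤ Real.exp (-(2 * (k * B))) := Real.exp_le_exp.2 (by linarith)
    have e2 : Real.exp ((12 * (k * B) + 8) * Real.log ((max t 1 : ℕ) : ℝ)) ≤ Real.exp ((1 - 3 * δ) * L) :=
      Real.exp_le_exp.2 (by nlinarith)
    have e3 : Real.exp ((1 - 2 * δ) * L) ≤ N := by
      have h1 : Real.exp ((1 - 2 * δ) * L) * 2 ≤ Real.exp ((1 - 3 / 2 * δ) * L) := by
        have h2 : Real.exp ((1 - 3 / 2 * δ) * L) = Real.exp ((1 - 2 * δ) * L) * Real.exp (δ * L / 2) := by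
          rw [← Real.exp_add]
          congr 1
          ring
        have h3 := Real.add_one_le_exp (δ * L / 2)
        rw [h2]
        gcongr
        linarith
      have h4 := Real.add_one_le_exp ((1 - 2 * δ) * L)
      have h5 : 0 ≤ (1 - 2 * δ) * L := by
        apply mul_nonneg _ hL0.le
        linarith
      linarith
    have e4 : Real.exp ((1 - 2 * δ) * L) * (Real.exp (-(δ * L / 2)) / 2) ≤ N * (Real.exp (-(2 * (k * B))) / 2) := by
      gcongr
    have e5 : Real.exp ((1 - 2 * δ) * L) * (Real.exp (-(δ * L / 2)) / 2) = Real.exp ((1 - 3 * δ) * L) *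
        (Real.exp (δ * L / 2) / 2) := by
      have h1 : Real.exp ((1 - 2 * δ) * L) * Real.exp (-(δ * L / 2)) =
          Real.exp ((1 - 3 * δ) * L) * Real.exp (δ * L / 2) := by
        rw [← Real.exp_add, ← Real.exp_add]
        congr 1
        ring
      linarith
    have e6 := Real.add_one_le_exp (δ * L / 2)
    have e7 : (4 : ℝ) ≤ Real.exp (δ * L / 2) / 2 := by linarith
    have e8 : Real.exp ((1 - 3 * δ) * L) * 4 ≤ Real.exp ((1 - 3 * δ) * L) * (Real.exp (δ * L / 2) / 2) := by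
      gcongr
    linarith

end Pool.Agent.U839.Cc
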