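import Mathlib
import Pool.Agent.U839.Cc.Cand2
import Pool.Agent.U839.Hl.Pat2

set_option autoImplicit false

/-! # Long Cunningham chains in random models: existence -/

open MeasureTheory ProbabilityTheory Filter Finset Topology

namespace Pool.Agent.U839.Cc

open Pool.Agent.U839.Thin (tlog none_complete)
open Pool.Agent.U839.Fb (tloglog borel)
open Pool.Agent.U839.Sv (W W_pos fT fT_nonneg Sieved law')
open Pool.Agent.U839.Rg (fT_one)
open Pool.Agent.U839.Ru (mul_exp)

variable {Ω : Type*} [MeasurableSpace Ω] {μ : Measure Ω} [IsProbabilityMeasure μ]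

theorem tm_inj (s : Bool) (i j a b : ℕ) (ha : 0 < a) (hb : 0 < b) (h : tm s i a = tm s j b) :
    2 ^ i * a = 2 ^ j * b := by
  have h1 : 0 < 2 ^ i * a := by positivity
  have h2 : 0 < 2 ^ j * b := by positivity
  unfold tm at h
  cases s
  · simp only [Bool.false_eq_true, if_false] at h
    omega
  · simp only [if_true] at h
    omega

theorem tm_self (s : Bool) (i j a : ℕ) (ha : 0 < a) (h : tm s i a = tm s j a) : i = j := by
  have h1 := tm_inj s i j a a ha ha h
  have h2 := Nat.eq_of_mul_eq_mul_right ha h1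
  exact Nat.pow_right_injective (le_refl 2) h2

theorem tm_ne (s : Bool) (x i j a b : ℕ) (ha : x < a) (ha2 : a ≤ x + x) (hb : x < b) (hb2 : b ≤ x + x)
    (h : tm s i a = tm s j b) : a = b := by
  have h1 := tm_inj s i j a b (by omega) (by omega) h
  have key : ∀ i j a b : ℕ, x < a → a ≤ x + x → x < b → b ≤ x + x → 2 ^ i * a = 2 ^ j * b → i ≤ j → a = b := by
    intro i j a b ha ha2 hb hb2 h hij
    obtain ⟨d, rfl⟩ := Nat.exists_eq_add_of_le hij
    rw [pow_add, mul_assoc] at h
    have h2 : a = 2 ^ d * b := Nat.eq_of_mul_eq_mul_left (by positivity) h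
    rcases Nat.eq_zero_or_pos d with h0 | h0
    · rw [h0, pow_zero, one_mul] at h2
      exact h2
    · exfalso
      have h3 : 2 ^ 1 ≤ 2 ^ d := Nat.pow_le_pow_right (by norm_num) h0
      have h4 : 2 ^ 1 * b ≤ 2 ^ d * b := Nat.mul_le_mul_right b h3
      omega
  rcases le_total i j with hij | hij
  · exact key i j a b ha ha2 hb hb2 h1 hij
  · exact (key j i b a hb hb2 ha ha2 h1.symm hij).symm

theorem tm_le (s : Bool) (i a m : ℕ) (h : 2 ^ i * a + 1 ≤ m) : tm s i a ≤ m := by
  unfold tm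
  cases s
  · simp only [Bool.false_eq_true, if_false]
    omega
  · simpa using h

theorem tm_ge (s : Bool) (i a : ℕ) : a ≤ tm s i a + 1 := by
  have h1 : 1 * a ≤ 2 ^ i * a := Nat.mul_le_mul_right a (Nat.one_le_two_pow)
  unfold tm
  cases s
  · simp only [Bool.false_eq_true, if_false]
    omega
  · simp only [if_true]
    omega

set_option maxHeartbeats 4000000 in
/-- the chains of maximal length -/
theorem low (θ : ℝ) (hθ : 1 ≤ θ) (δ : ℝ) (hδ : 0 < δ) (hδ1 : δ ≤ 1 / 100) (c : ℝ) (hc : 0 < c)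
    (hcond : 24 * (Real.log θ + 8 * δ) * θ * c ≤ 1 / 4) (hcδ : c + 5 * δ ≤ 1)
    (T : ℕ → ℕ) (hT : Monotone T) (hTθ : ∀ᶠ n : ℕ in atTop, (T n : ℝ) ≤ (Real.log n) ^ θ)
    {E : ℕ → Set Ω} (h : Sieved μ E T) (s : Bool) :
    ∀ᵐ ω ∂μ, ∀ᶠ x : ℕ in atTop, ∀ k : ℕ, (k : ℝ) * Real.log (Real.log x) ≤ c * Real.log x →
      ∃ a, x < a ∧ a ≤ x + x ∧ ∀ i < k, ω ∈ E (tm s i a) := by
  classical
  have hTs := Pool.Agent.U839.Sv.sub_pow T θ hTθ
  obtain ⟨n₀, hn₀⟩ := eventually_atTop.1 (law' h hTs)
  have h3m : Tendsto (fun x : ℕ => x ^ 3) atTop atTop := tendsto_pow_atTop (by norm_num)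
  obtain ⟨K, hK⟩ : ∃ K : ℕ → ℕ, K = fun (x : ℕ) => ⌊c * Real.log x / Real.log (Real.log x)⌋₊ := ⟨_, rfl⟩
  obtain ⟨B, hB⟩ : ∃ B : ℕ → Set Ω, B = fun x => {ω | ¬ ∃ a, x < a ∧ a ≤ x + x ∧ ∀ i < K x, ω ∈ E (tm s i a)} :=
    ⟨_, rfl⟩
  have hsum : Summable (fun x : ℕ => μ.real (B x)) := by
    have h1 := Pool.Agent.U839.Hl.exp_summable δ hδ
    refine Summable.of_norm_bounded_eventually_nat h1 ?_
    filter_upwards [cand θ hθ δ hδ hδ1 c hc hcond, h3m.eventually hTθ, tlog.eventually_ge_atTop 100,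
      tloglog.eventually_ge_atTop (2 * c / δ + c + 1), eventually_ge_atTop (n₀ + 4)] with x g1 g2 g3 g4 g5
    rw [Real.norm_of_nonneg measureReal_nonneg]
    obtain ⟨L, hL⟩ : ∃ L, L = Real.log x := ⟨_, rfl⟩
    obtain ⟨u, hu⟩ : ∃ u, u = Real.log L := ⟨_, rfl⟩
    rw [← hL] at g1 g3 g4
    rw [← hu] at g1 g4
    have hx4 : (4 : ℝ) ≤ x := by exact_mod_cast (by omega : 4 ≤ x)
    have hx0 : (0 : ℝ) < x := by linarith
    have hL0 : 0 < L := by linarith
    have hxL : (x : ℝ) = Real.exp L := by rw [hL, Real.exp_log hx0]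
    have hcδ' : 0 ≤ 2 * c / δ := by positivity
    have hu1 : 1 ≤ u := by linarith
    have hu0 : 0 < u := by linarith
    obtain ⟨k, hk⟩ : ∃ k, k = K x := ⟨_, rfl⟩
    have hku : (k : ℝ) * u ≤ c * L := by
      have h2 : (k : ℝ) ≤ c * L / u := by
        rw [hk, hK]
        simp only
        rw [← hL, ← hu]
        exact Nat.floor_le (by positivity)
      rwa [le_div_iff₀ hu0] at h2
    have hkL : (k : ℝ) ≤ L := by
      have h2 : c * L ≤ L * u := by nlinarith
      have h3 : (k : ℝ) * u ≤ L * u := by linarith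
      exact le_of_mul_le_mul_right h3 hu0
    have hkδ : 2 * (k : ℝ) ≤ δ * L := by
      have h2 : 2 * c ≤ δ * u := by
        have h3 : 2 * c / δ ≤ u := by linarith
        rw [div_le_iff₀ hδ] at h3
        linarith
      have h4 : 2 * (k : ℝ) * u ≤ δ * L * u := by
        calc 2 * (k : ℝ) * u = 2 * (k * u) := by ring
          _ ≤ 2 * (c * L) := by gcongr
          _ = (2 * c) * L := by ring
          _ ≤ (δ * u) * L := by gcongr
          _ = δ * L * u := by ring
      exact le_of_mul_le_mul_right h4 hu0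
    have h2k : (2 : ℝ) ^ k ≤ x := by
      rw [hxL, ← Real.rpow_natCast, Real.rpow_def_of_pos (by norm_num)]
      apply Real.exp_le_exp.2
      have := Real.log_two_lt_d9
      have h0 : (0 : ℝ) ≤ k := Nat.cast_nonneg _
      nlinarith
    have h2kn : 2 ^ k ≤ x := by exact_mod_cast h2k
    have ht : (T (x ^ 3) : ℝ) ≤ (3 * L) ^ θ := by
      have h2 : Real.log ((x ^ 3 : ℕ) : ℝ) = 3 * L := by
        push_cast
        rw [Real.log_pow, hL]
        norm_num
      rw [h2] at g2
      exact g2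
    obtain ⟨S, hS1, hS2, hS3⟩ := g1 (T (x ^ 3)) ht k hku s
    have hbound : ∀ a ∈ S, ∀ i < k, tm s i a ≤ x ^ 3 ∧ x ≤ tm s i a := by
      intro a ha i hi
      have ha1 := mem_Ioc.1 (hS1 ha)
      constructor
      · apply tm_le
        have h3 : 2 ^ i ≤ x := (Nat.pow_le_pow_right (by norm_num) hi.le).trans h2kn
        have h4 : 2 ^ i * a ≤ x * (x + x) := Nat.mul_le_mul h3 ha1.2
        have h5 : x * (x + x) + 1 ≤ x ^ 3 := by
          have hx : 4 ≤ x := by omega
          nlinarith [Nat.mul_le_mul hx hx, Nat.mul_le_mul_right (x * x) hx]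
        omega
      · have := tm_ge s i a
        omega
    have hdisj : ∀ a ∈ S, ∀ b ∈ S, a ≠ b → Disjoint ((range k).image (fun i => tm s i a))
        ((range k).image (fun i => tm s i b)) := by
      intro a ha b hb hab
      have ha1 := mem_Ioc.1 (hS1 ha)
      have hb1 := mem_Ioc.1 (hS1 hb)
      rw [Finset.disjoint_left]
      intro m hm1 hm2
      rw [mem_image] at hm1 hm2
      obtain ⟨i, -, rfl⟩ := hm1
      obtain ⟨j, -, hj⟩ := hm2
      exact hab (tm_ne s x i j a b ha1.1 ha1.2 hb1.1 hb1.2 hj.symm)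
    have hmain := none_complete (μ := μ) h.meas h.indep S (fun a => (range k).image (fun i => tm s i a)) hdisj
    have hprob : ∀ a ∈ S, Real.exp (-((c + δ) * L)) ≤ ∏ p ∈ (range k).image (fun i => tm s i a), μ.real (E p) := by
      intro a ha
      have ha1 := mem_Ioc.1 (hS1 ha)
      rw [prod_image (fun i _ j _ hij => tm_self s i j a (by omega) hij)]
      have h4 : ∀ i ∈ range k, 1 / (3 * L) ≤ μ.real (E (tm s i a)) := by
        intro i hi
        rw [mem_range] at hi
        obtain ⟨b1, b2⟩ := hbound a ha i hi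
        rw [hn₀ _ (by omega)]
        have hm0 : (x : ℝ) ≤ (tm s i a : ℝ) := by exact_mod_cast b2
        have hm3 : (tm s i a : ℝ) ≤ (x : ℝ) ^ 3 := by exact_mod_cast b1
        have hl1 : L ≤ Real.log (tm s i a) := by rw [hL]; exact Real.log_le_log hx0 hm0
        have hl2 : Real.log (tm s i a) ≤ 3 * L := by
          have h5 := Real.log_le_log (by linarith) hm3
          rw [Real.log_pow, ← hL] at h5
          push_cast at h5
          exact h5
        have h4 : 1 ≤ fT T (tm s i a) := fT_one (t := T (x ^ 3)) (hT b1)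
          (fun p hp hpt hdvd => hS2 a ha i hi p hp hpt hdvd)
        rw [div_le_div_iff₀ (by positivity) (by linarith)]
        nlinarith
      calc Real.exp (-((c + δ) * L)) ≤ (1 / (3 * L)) ^ k := by
            have e : (1 / (3 * L)) ^ k = Real.exp (-(k * Real.log (3 * L))) := by
              rw [← Real.rpow_natCast (1 / (3 * L)), Real.rpow_def_of_pos (by positivity), one_div, Real.log_inv]
              congr 1
              ring
            rw [e]
            apply Real.exp_le_exp.2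
            rw [Real.log_mul (by norm_num) hL0.ne', ← hu]
            have h5 : Real.log 3 ≤ 2 := by
              have := Real.log_le_sub_one_of_pos (show (0 : ℝ) < 3 by norm_num)
              linarith
            have h6 : (k : ℝ) * Real.log 3 ≤ k * 2 := by gcongr
            linarith
        _ = ∏ i ∈ range k, 1 / (3 * L) := by rw [prod_const, card_range]
        _ ≤ ∏ i ∈ range k, μ.real (E (tm s i a)) := prod_le_prod (fun _ _ => by positivity) h4
    have hsub : B x ⊆ ⋂ a ∈ S, (⋂ p ∈ (range k).image (fun i => tm s i a), E p)ᶜ := by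
      intro ω hω
      rw [hB] at hω
      rw [Set.mem_iInter₂]
      intro a ha hcon
      have ha1 := mem_Ioc.1 (hS1 ha)
      apply hω
      refine ⟨a, ha1.1, ha1.2, fun i hi => ?_⟩
      rw [Set.mem_iInter₂] at hcon
      exact hcon _ (mem_image_of_mem _ (by rw [mem_range, hk]; exact hi))
    have hfin : μ.real (B x) ≤ Real.exp (-(x : ℝ) ^ δ) := by
      refine (measureReal_mono hsub (measure_ne_top _ _)).trans (hmain.trans ?_)
      apply Real.exp_le_exp.2
      rw [neg_le_neg_iff]
      calc (x : ℝ) ^ δ = Real.exp (δ * L) := by rw [Real.rpow_def_of_pos hx0, ← hL, mul_comm]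
        _ ≤ Real.exp ((1 - 3 * δ) * L + -((c + δ) * L)) := by
            apply Real.exp_le_exp.2
            nlinarith
        _ = Real.exp ((1 - 3 * δ) * L) * Real.exp (-((c + δ) * L)) := Real.exp_add _ _
        _ ≤ S.card * Real.exp (-((c + δ) * L)) := by gcongr
        _ = ∑ a ∈ S, Real.exp (-((c + δ) * L)) := by rw [sum_const, nsmul_eq_mul]
        _ ≤ _ := sum_le_sum hprob
    refine hfin.trans ?_
    have h9 := Real.exp_pos (-(x : ℝ) ^ δ)
    nlinarith
  filter_upwards [borel hsum] with ω hω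
  filter_upwards [hω, tloglog.eventually_gt_atTop 0] with x hx g1 k hk
  rw [hB] at hx
  simp only [Set.mem_ofPred_eq, not_not] at hx
  obtain ⟨a, ha1, ha2, ha3⟩ := hx
  refine ⟨a, ha1, ha2, fun i hi => ha3 i ?_⟩
  refine lt_of_lt_of_le hi ?_
  rw [hK]
  apply Nat.le_floor
  rw [le_div_iff₀ g1]
  exact hk

end Pool.Agent.U839.Cc
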