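import Mathlib
import Pool.Agent.U839.Cc.Low

set_option autoImplicit false

/-! # Long Cunningham chains in random models: upper bound -/

open MeasureTheory ProbabilityTheory Filter Finset Topology

namespace Pool.Agent.U839.Cc

open Pool.Agent.U839.Thin (tlog)
open Pool.Agent.U839.Fb (tloglog borel)
open Pool.Agent.U839.Sv (W W_pos fT fT_nonneg Sieved law')
open Pool.Agent.U839.Ru (mul_exp)

variable {Ω : Type*} [MeasurableSpace Ω] {μ : Measure Ω} [IsProbabilityMeasure μ]

omit [IsProbabilityMeasure μ] in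
/-- the probabilities are small -/
theorem prob_small (θ : ℝ) (hθ : 0 < θ) (T : ℕ → ℕ) (hTθ : ∀ᶠ n : ℕ in atTop, (T n : ℝ) ≤ (Real.log n) ^ θ)
    {E : ℕ → Set Ω} (h : Sieved μ E T) (η : ℝ) (hη : 0 < η) :
    ∀ᶠ m : ℕ in atTop, μ.real (E m) ≤ Real.exp (-((1 - η) * Real.log (Real.log m))) := by
  obtain ⟨C, hC, hW⟩ := Pool.Agent.U839.Sv.W_bound
  filter_upwards [hTθ, tloglog.eventually (mul_exp (C + C * θ) η hη), tloglog.eventually_ge_atTop 1,
    tlog.eventually_gt_atTop 0] with m g1 g2 g3 g4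
  obtain ⟨u, hu⟩ : ∃ u, u = Real.log (Real.log m) := ⟨_, rfl⟩
  rw [← hu] at g2 g3 ⊢
  have huL : Real.exp u = Real.log m := by rw [hu, Real.exp_log g4]
  rw [h.law m]
  refine (min_le_right _ _).trans ?_
  rw [div_le_iff₀ g4]
  have hTn : Real.log (T m) ≤ θ * u := by
    rcases Nat.eq_zero_or_pos (T m) with h0 | h0
    · rw [h0, Nat.cast_zero, Real.log_zero]
      positivity
    · have h2 := Real.log_le_log (by exact_mod_cast h0) g1
      rwa [Real.log_rpow g4, ← hu] at h2
  calc fT T m ≤ W (T m) := Pool.Agent.U839.Sv.fT_le T m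
    _ ≤ C + C * Real.log (T m) := hW _
    _ ≤ C + C * (θ * u) := by gcongr
    _ ≤ (C + C * θ) * u := by nlinarith
    _ ≤ Real.exp (η * u) := g2
    _ = Real.exp (-((1 - η) * u)) * Real.exp u := by
        rw [← Real.exp_add]
        congr 1
        ring
    _ = Real.exp (-((1 - η) * u)) * Real.log m := by rw [huL]

/-- long chains are rare -/
theorem up (θ : ℝ) (hθ : 0 < θ) (T : ℕ → ℕ) (hTθ : ∀ᶠ n : ℕ in atTop, (T n : ℝ) ≤ (Real.log n) ^ θ)
    {E : ℕ → Set Ω} (h : Sieved μ E T) (s : Bool) (ε : ℝ) (hε : 0 < ε) :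
    ∀ᵐ ω ∂μ, ∀ᶠ a : ℕ in atTop, ∀ k : ℕ, (∀ i < k, ω ∈ E (tm s i a)) →
      (k : ℝ) * Real.log (Real.log a) ≤ (1 + ε) * Real.log a := by
  classical
  obtain ⟨η, hη⟩ : ∃ η : ℝ, η = ε / (10 * (1 + ε)) := ⟨_, rfl⟩
  have hη0 : 0 < η := by rw [hη]; positivity
  have hη1 : η * (1 + ε) = ε / 10 := by rw [hη]; field_simp
  have hη2 : η ≤ 1 / 10 := by
    rw [hη, div_le_div_iff₀ (by positivity) (by norm_num)]
    linarith
  obtain ⟨m₀, hm₀⟩ := eventually_atTop.1 (prob_small θ hθ T hTθ h η hη0)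
  obtain ⟨K, hK⟩ : ∃ K : ℕ → ℕ, K = fun (a : ℕ) => ⌈(1 + ε) * Real.log a / Real.log (Real.log a)⌉₊ := ⟨_, rfl⟩
  obtain ⟨B, hB⟩ : ∃ B : ℕ → Set Ω, B = fun a => ⋂ m ∈ (range (K a)).image (fun i => tm s i a), E m := ⟨_, rfl⟩
  have hsum : Summable (fun a : ℕ => μ.real (B a)) := by
    have h1 : Summable (fun a : ℕ => 1 / (a : ℝ) ^ (1 + 1 / 2 * ε)) :=
      Real.summable_one_div_nat_rpow.2 (by linarith)
    refine Summable.of_norm_bounded_eventually_nat h1 ?_
    filter_upwards [eventually_ge_atTop (m₀ + 4), tlog.eventually_ge_atTop 100,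
      tloglog.eventually_ge_atTop (1 / η)] with a g1 g2 g3
    rw [Real.norm_of_nonneg measureReal_nonneg]
    obtain ⟨L, hL⟩ : ∃ L, L = Real.log a := ⟨_, rfl⟩
    obtain ⟨u, hu⟩ : ∃ u, u = Real.log L := ⟨_, rfl⟩
    rw [← hL] at g2 g3
    rw [← hu] at g3
    have ha4 : (4 : ℝ) ≤ a := by exact_mod_cast (by omega : 4 ≤ a)
    have ha0 : (0 : ℝ) < a := by linarith
    have hL0 : 0 < L := by linarith
    have hηu : 1 ≤ η * u := by
      calc (1 : ℝ) = η * (1 / η) := by field_simp
        _ ≤ η * u := by gcongr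
    have hu0 : 0 < u := by
      by_contra hcon
      push Not at hcon
      nlinarith
    have hku : (1 + ε) * L ≤ (K a : ℝ) * u := by
      have h2 : (1 + ε) * L / u ≤ K a := by
        rw [hK]
        simp only
        rw [← hL, ← hu]
        exact Nat.le_ceil _
      rwa [div_le_iff₀ hu0] at h2
    have hq : ∀ i ∈ range (K a), μ.real (E (tm s i a)) ≤ Real.exp (-((1 - 2 * η) * u)) := by
      intro i _
      have h2 := tm_ge s i a
      refine (hm₀ _ (by omega)).trans ?_
      apply Real.exp_le_exp.2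
      have h3 : (a : ℝ) / 2 ≤ (tm s i a : ℝ) := by
        have h4 : a ≤ 2 * tm s i a := by omega
        have h5 : (a : ℝ) ≤ 2 * tm s i a := by exact_mod_cast h4
        linarith
      have h4 : L / 2 ≤ Real.log (tm s i a) := by
        have h5 := Real.log_le_log (by positivity) h3
        rw [Real.log_div ha0.ne' (by norm_num), ← hL] at h5
        have := Real.log_two_lt_d9
        linarith
      have h5 : u - 1 ≤ Real.log (Real.log (tm s i a)) := by
        have h6 := Real.log_le_log (by positivity) h4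
        rw [Real.log_div hL0.ne' (by norm_num), ← hu] at h6
        have := Real.log_two_lt_d9
        linarith
      have h6 : (1 - η) * (u - 1) ≤ (1 - η) * Real.log (Real.log (tm s i a)) :=
        mul_le_mul_of_nonneg_left h5 (by linarith)
      nlinarith
    have hprod : μ.real (B a) = ∏ m ∈ (range (K a)).image (fun i => tm s i a), μ.real (E m) := by
      have h2 := h.indep.meas_biInter ((range (K a)).image (fun i => tm s i a))
      rw [hB]
      simp only [measureReal_def]
      rw [h2, ENNReal.toReal_prod]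
    rw [hprod, prod_image (fun i _ j _ hij => tm_self s i j a (by omega) hij)]
    calc ∏ i ∈ range (K a), μ.real (E (tm s i a)) ≤ ∏ i ∈ range (K a), Real.exp (-((1 - 2 * η) * u)) :=
          prod_le_prod (fun _ _ => measureReal_nonneg) hq
      _ = Real.exp (-((1 - 2 * η) * u) * K a) := by
          rw [prod_const, card_range, ← Real.exp_nat_mul, mul_comm]
      _ ≤ Real.exp (-((1 + 1 / 2 * ε) * L)) := by
          apply Real.exp_le_exp.2
          have h2 : (1 - 2 * η) * ((1 + ε) * L) ≤ (1 - 2 * η) * (K a * u) :=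
            mul_le_mul_of_nonneg_left hku (by linarith)
          have h3 : (1 - 2 * η) * ((1 + ε) * L) = (1 + ε - 2 * (η * (1 + ε))) * L := by ring
          rw [h3, hη1] at h2
          nlinarith
      _ = 1 / (a : ℝ) ^ (1 + 1 / 2 * ε) := by
          rw [Real.rpow_def_of_pos ha0, ← hL, eq_div_iff (Real.exp_pos _).ne', ← Real.exp_add]
          have h0 : -((1 + 1 / 2 * ε) * L) + L * (1 + 1 / 2 * ε) = 0 := by ring
          rw [h0, Real.exp_zero]
  filter_upwards [borel hsum] with ω hω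
  filter_upwards [hω, tloglog.eventually_gt_atTop 0] with a ha g1 k hk
  by_contra hcon
  push Not at hcon
  apply ha
  rw [hB, Set.mem_iInter₂]
  intro m hm
  rw [mem_image] at hm
  obtain ⟨i, hi, rfl⟩ := hm
  rw [mem_range, hK] at hi
  apply hk
  refine lt_of_lt_of_le hi ?_
  apply Nat.ceil_le.2
  rw [div_le_iff₀ g1]
  exact hcon.le

/-- all chains are finite -/
theorem finite (θ : ℝ) (hθ : 0 < θ) (T : ℕ → ℕ) (hTθ : ∀ᶠ n : ℕ in atTop, (T n : ℝ) ≤ (Real.log n) ^ θ)
    {E : ℕ → Set Ω} (h : Sieved μ E T) (s : Bool) :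
    ∀ᵐ ω ∂μ, ∀ a : ℕ, 0 < a → ∃ i, ω ∉ E (tm s i a) := by
  rw [ae_all_iff]
  intro a
  by_cases ha : 0 < a
  swap
  · exact Filter.Eventually.of_forall (fun ω h0 => absurd h0 ha)
  have h1 : μ.real (⋂ i, E (tm s i a)) = 0 := by
    apply le_antisymm _ measureReal_nonneg
    have h2 : Tendsto (fun m : ℕ => Real.exp (-((1 - 1 / 2) * Real.log (Real.log m)))) atTop (𝓝 0) := by
      apply Real.tendsto_exp_neg_atTop_nhds_zero.comp
      exact tloglog.const_mul_atTop (by norm_num)
    have h3 : Tendsto (fun i : ℕ => tm s i a) atTop atTop := by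
      have h4 : Tendsto (fun i : ℕ => i) atTop atTop := tendsto_id
      refine tendsto_atTop_mono (fun i => ?_) h4
      have h5 : i < 2 ^ i := Nat.lt_two_pow_self
      have h6 : 2 ^ i * 1 ≤ 2 ^ i * a := Nat.mul_le_mul_left _ ha
      unfold tm
      cases s
      · simp only [Bool.false_eq_true, if_false]
        omega
      · simp only [if_true]
        omega
    have h4 : ∀ᶠ i : ℕ in atTop, μ.real (⋂ i, E (tm s i a)) ≤
        Real.exp (-((1 - 1 / 2) * Real.log (Real.log (tm s i a)))) := by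
      filter_upwards [h3.eventually (prob_small θ hθ T hTθ h (1 / 2) (by norm_num))] with i hi
      exact (measureReal_mono (Set.iInter_subset _ i) (measure_ne_top _ _)).trans hi
    exact ge_of_tendsto (h2.comp h3) h4
  have h2 : μ (⋂ i, E (tm s i a)) = 0 := by
    rw [measureReal_def, ENNReal.toReal_eq_zero_iff] at h1
    rcases h1 with h1 | h1
    · exact h1
    · exact absurd h1 (measure_ne_top _ _)
  have h3 := measure_eq_zero_iff_ae_notMem.1 h2
  filter_upwards [h3] with ω hω _
  rw [Set.mem_iInter] at hω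
  push Not at hω
  exact hω

end Pool.Agent.U839.Cc
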