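import Mathlib
import Pool.Agent.U839.Cc.Up

set_option autoImplicit false

/-! # The longest Cunningham chain in random models -/

open MeasureTheory ProbabilityTheory Filter Finset Topology

namespace Pool.Agent.U839.Cc

open Pool.Agent.U839.Thin (tlog)
open Pool.Agent.U839.Fb (tloglog borel)
open Pool.Agent.U839.Sv (fT Sieved)

variable {Ω : Type*} [MeasurableSpace Ω] {μ : Measure Ω} [IsProbabilityMeasure μ]

/-- `n ± 1` -/
def base (s : Bool) (n : ℕ) : ℕ := if s then n - 1 else n + 1

/-- the longest chain with first element at most `X` -/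
noncomputable def LL (s : Bool) (Q : Set ℕ) (X : ℕ) : ℕ := sSup {k | ∃ n ≤ X, ∀ i < k, tm s i (base s n) ∈ Q}

omit [IsProbabilityMeasure μ] in
theorem one_null {T : ℕ → ℕ} {E : ℕ → Set Ω} (h : Sieved μ E T) [IsFiniteMeasure μ] : ∀ᵐ ω ∂μ, ω ∉ E 1 := by
  have h1 : μ.real (E 1) = 0 := by
    rw [h.law 1]
    simp
  have h2 : μ (E 1) = 0 := by
    rw [measureReal_def, ENNReal.toReal_eq_zero_iff] at h1
    rcases h1 with h1 | h1
    · exact h1
    · exact absurd h1 (measure_ne_top _ _)
  exact measure_eq_zero_iff_ae_notMem.1 h2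

theorem fin_all (s : Bool) (Q : Set ℕ) (hfin : ∀ a : ℕ, 0 < a → ∃ i, tm s i a ∉ Q) (h1 : 1 ∉ Q) (n : ℕ) :
    ∃ i, tm s i (base s n) ∉ Q := by
  rcases Nat.eq_zero_or_pos (base s n) with h0 | h0
  · refine ⟨0, ?_⟩
    rw [h0]
    unfold base at h0
    cases s
    · simp at h0
    · simpa [tm] using h1
  · exact hfin _ h0

theorem LL_bdd (s : Bool) (Q : Set ℕ) (I : ℕ → ℕ) (hI : ∀ n, tm s (I n) (base s n) ∉ Q) (X : ℕ) :
    ∑ n ∈ range (X + 1), I n ∈ upperBounds {k | ∃ n ≤ X, ∀ i < k, tm s i (base s n) ∈ Q} := by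
  rintro k ⟨n, hn, hk⟩
  have h1 : k ≤ I n := by
    by_contra hcon
    push Not at hcon
    exact hI n (hk _ hcon)
  exact h1.trans (single_le_sum (f := I) (fun _ _ => Nat.zero_le _) (mem_range.2 (by omega)))

theorem mono_frac (a b : ℝ) (ha : 0 < a) (hab : a ≤ b) (h1 : 1 ≤ Real.log a) :
    a * Real.log b ≤ b * Real.log a := by
  have hb : 0 < b := by linarith
  have e : Real.log b = Real.log a + Real.log (b / a) := by
    rw [← Real.log_mul (by positivity) (by positivity)]
    congr 1
    field_simp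
  have h2 := Real.log_le_sub_one_of_pos (show 0 < b / a by positivity)
  have h3 : a * Real.log (b / a) ≤ b - a := by
    calc a * Real.log (b / a) ≤ a * (b / a - 1) := by gcongr
      _ = b - a := by field_simp
  rw [e]
  nlinarith

theorem up_det (s : Bool) (Q : Set ℕ) (hfin : ∀ a : ℕ, 0 < a → ∃ i, tm s i a ∉ Q) (h1 : 1 ∉ Q)
    (ε : ℝ) (hε : 0 < ε)
    (hup : ∀ᶠ a : ℕ in atTop, ∀ k : ℕ, (∀ i < k, tm s i a ∈ Q) →
      (k : ℝ) * Real.log (Real.log a) ≤ (1 + ε) * Real.log a) :
    ∀ᶠ X : ℕ in atTop, (LL s Q X : ℝ) * Real.log (Real.log X) ≤ (1 + 2 * ε) * Real.log X := by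
  choose I hI using fin_all s Q hfin h1
  obtain ⟨N₀, hN₀⟩ := eventually_atTop.1 (hup.and (tloglog.eventually_ge_atTop 1))
  obtain ⟨C, hC⟩ : ∃ C, C = ∑ n ∈ range (N₀ + 2), I n := ⟨_, rfl⟩
  filter_upwards [tlog.eventually_ge_atTop (2 * (1 + ε) / ε), tlog.eventually_gt_atTop 0,
    tloglog.eventually (Pool.Agent.U839.Ru.mul_exp C 1 one_pos), tloglog.eventually_ge_atTop 1,
    eventually_ge_atTop 1] with X g1 g2 g3 g4 g5
  have hmem : LL s Q X ∈ {k | ∃ n ≤ X, ∀ i < k, tm s i (base s n) ∈ Q} :=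
    Nat.sSup_mem ⟨0, 0, Nat.zero_le _, by simp⟩ ⟨_, LL_bdd s Q I hI X⟩
  obtain ⟨n, hn, hk⟩ := hmem
  obtain ⟨k, hk'⟩ : ∃ k, k = LL s Q X := ⟨_, rfl⟩
  rw [← hk'] at hk ⊢
  rcases Nat.lt_or_ge (base s n) N₀ with h2 | h2
  · have h3 : n < N₀ + 2 := by
      unfold base at h2
      cases s
      · simp at h2
        omega
      · simp at h2
        omega
    have h4 : k ≤ I n := by
      by_contra hcon
      push Not at hcon
      exact hI n (hk _ hcon)
    have h5 : k ≤ C := by
      rw [hC]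
      exact h4.trans (single_le_sum (f := I) (fun _ _ => Nat.zero_le _) (mem_range.2 h3))
    have h6 : (k : ℝ) ≤ C := by exact_mod_cast h5
    rw [one_mul, Real.exp_log g2] at g3
    calc (k : ℝ) * Real.log (Real.log X) ≤ C * Real.log (Real.log X) := by gcongr
      _ ≤ Real.log X := g3
      _ ≤ (1 + 2 * ε) * Real.log X := by nlinarith
  · obtain ⟨h3, h4⟩ := hN₀ _ h2
    have h5 := h3 k hk
    obtain ⟨a, ha⟩ : ∃ a, a = base s n := ⟨_, rfl⟩
    rw [← ha] at h4 h5 h2
    have haX : a ≤ 2 * X := by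
      rw [ha]
      unfold base
      cases s
      · simp
        omega
      · simp
        omega
    have hX0 : (0 : ℝ) < X := by exact_mod_cast g5
    have ha0 : (0 : ℝ) < a := by
      rcases Nat.eq_zero_or_pos a with h0 | h0
      · rw [h0, Nat.cast_zero, Real.log_zero, Real.log_zero] at h4
        linarith
      · exact_mod_cast h0
    have hla : 0 < Real.log a := by
      by_contra hcon
      push Not at hcon
      have h6 : 0 ≤ Real.log (a : ℝ) := Real.log_natCast_nonneg a
      have h7 : Real.log (a : ℝ) = 0 := le_antisymm hcon h6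
      rw [h7, Real.log_zero] at h4
      linarith
    have hlb : Real.log a ≤ Real.log X + 1 := by
      have h6 : (a : ℝ) ≤ 2 * X := by exact_mod_cast haX
      have h7 := Real.log_le_log ha0 h6
      rw [Real.log_mul (by norm_num) hX0.ne'] at h7
      have := Real.log_two_lt_d9
      linarith
    have h6 := mono_frac (Real.log a) (Real.log X + 1) hla hlb h4
    have h7 : Real.log (Real.log X) ≤ Real.log (Real.log X + 1) := Real.log_le_log g2 (by linarith)
    have h8 : (k : ℝ) * Real.log (Real.log X + 1) ≤ (1 + ε) * (Real.log X + 1) := by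
      have h9 : (k : ℝ) * Real.log (Real.log X + 1) * (Real.log a * Real.log (Real.log a)) ≤
          (1 + ε) * (Real.log X + 1) * (Real.log a * Real.log (Real.log a)) := by
        calc (k : ℝ) * Real.log (Real.log X + 1) * (Real.log a * Real.log (Real.log a))
            = (k * Real.log (Real.log a)) * (Real.log a * Real.log (Real.log X + 1)) := by ring
          _ ≤ ((1 + ε) * Real.log a) * ((Real.log X + 1) * Real.log (Real.log a)) := by
              apply mul_le_mul h5 h6
              · apply mul_nonneg hla.le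
                linarith
              · positivity
          _ = (1 + ε) * (Real.log X + 1) * (Real.log a * Real.log (Real.log a)) := by ring
      exact le_of_mul_le_mul_right h9 (by positivity)
    have h10 : 2 * (1 + ε) ≤ ε * Real.log X := by
      calc 2 * (1 + ε) = ε * (2 * (1 + ε) / ε) := by field_simp
        _ ≤ ε * Real.log X := by gcongr
    have h11 : (k : ℝ) * Real.log (Real.log X) ≤ k * Real.log (Real.log X + 1) := by gcongr
    nlinarith

theorem low_det (s : Bool) (Q : Set ℕ) (hfin : ∀ a : ℕ, 0 < a → ∃ i, tm s i a ∉ Q) (h1 : 1 ∉ Q)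
    (c : ℝ) (hc : 0 < c) (ε : ℝ) (hε : 0 < ε)
    (hlow : ∀ᶠ x : ℕ in atTop, ∀ k : ℕ, (k : ℝ) * Real.log (Real.log x) ≤ c * Real.log x →
      ∃ a, x < a ∧ a ≤ x + x ∧ ∀ i < k, tm s i a ∈ Q) :
    ∀ᶠ X : ℕ in atTop, (c - ε) * Real.log X ≤ (LL s Q X : ℝ) * Real.log (Real.log X) := by
  choose I hI using fin_all s Q hfin h1
  have hx : Tendsto (fun X : ℕ => (X - 1) / 2) atTop atTop := by
    apply tendsto_atTop_atTop.2
    intro b
    exact ⟨2 * b + 1, fun a ha => by omega⟩
  filter_upwards [hx.eventually hlow, hx.eventually (tloglog.eventually_gt_atTop 0),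
    hx.eventually (tlog.eventually_gt_atTop 0),
    tloglog.eventually (Pool.Agent.U839.Ru.mul_exp (2 / ε) 1 one_pos), tlog.eventually_ge_atTop (4 * c / ε + 1),
    eventually_ge_atTop 4] with X g1 g2 g3 g4 g5 g6
  obtain ⟨x, hxd⟩ : ∃ x, x = (X - 1) / 2 := ⟨_, rfl⟩
  rw [← hxd] at g1 g2 g3
  have hxX : x + x + 1 ≤ X := by omega
  have hXx : X ≤ 4 * x := by omega
  have hX0 : (0 : ℝ) < X := by exact_mod_cast (by omega : 0 < X)
  have hx0 : (0 : ℝ) < x := by exact_mod_cast (by omega : 0 < x)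
  have hcε : 0 ≤ 4 * c / ε := by positivity
  have hLX : 0 < Real.log X := by linarith
  obtain ⟨k, hk⟩ : ∃ k, k = ⌊c * Real.log x / Real.log (Real.log x)⌋₊ := ⟨_, rfl⟩
  have hk1 : (k : ℝ) * Real.log (Real.log x) ≤ c * Real.log x := by
    have h2 : (k : ℝ) ≤ c * Real.log x / Real.log (Real.log x) := by
      rw [hk]
      exact Nat.floor_le (by positivity)
    rwa [le_div_iff₀ g2] at h2
  have hk2 : c * Real.log x ≤ (k + 1) * Real.log (Real.log x) := by
    have h2 := Nat.lt_floor_add_one (c * Real.log x / Real.log (Real.log x))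
    rw [← hk, div_lt_iff₀ g2] at h2
    exact h2.le
  obtain ⟨a, ha1, ha2, ha3⟩ := g1 k hk1
  have hkL : k ≤ LL s Q X := by
    refine le_csSup ⟨_, LL_bdd s Q I hI X⟩ ?_
    cases s
    · refine ⟨a - 1, by omega, fun i hi => ?_⟩
      have : base false (a - 1) = a := by
        unfold base
        simp
        omega
      rw [this]
      exact ha3 i hi
    · refine ⟨a + 1, by omega, fun i hi => ?_⟩
      have : base true (a + 1) = a := by
        unfold base
        simp
      rw [this]
      exact ha3 i hi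
  have hlog1 : Real.log x ≤ Real.log X := Real.log_le_log hx0 (by exact_mod_cast (by omega : x ≤ X))
  have hlog2 : Real.log X ≤ Real.log x + 2 := by
    have h2 : (X : ℝ) ≤ 4 * x := by exact_mod_cast hXx
    have h3 := Real.log_le_log hX0 h2
    rw [Real.log_mul (by norm_num) hx0.ne'] at h3
    have h4 : Real.log 4 ≤ 2 := by
      rw [show (4 : ℝ) = 2 ^ 2 by norm_num, Real.log_pow]
      have := Real.log_two_lt_d9
      push_cast
      linarith
    linarith
  have hll : Real.log (Real.log x) ≤ Real.log (Real.log X) := Real.log_le_log g3 hlog1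
  have hll0 : 0 < Real.log (Real.log X) := by linarith
  rw [one_mul, Real.exp_log hLX] at g4
  have h5 : Real.log (Real.log X) ≤ ε / 2 * Real.log X := by
    have h6 : 2 / ε * Real.log (Real.log X) * (ε / 2) ≤ Real.log X * (ε / 2) := by gcongr
    have h7 : 2 / ε * Real.log (Real.log X) * (ε / 2) = Real.log (Real.log X) := by field_simp
    linarith
  have h6 : 2 * c ≤ ε / 2 * Real.log X := by
    have h7 : 4 * c / ε ≤ Real.log X := by linarith
    rw [div_le_iff₀ hε] at h7
    linarith
  have h8 : ((k : ℝ) + 1) * Real.log (Real.log x) ≤ (k + 1) * Real.log (Real.log X) := by gcongr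
  have h9 : (k : ℝ) * Real.log (Real.log X) ≤ LL s Q X * Real.log (Real.log X) := by gcongr
  have h10 : c * Real.log X ≤ c * (Real.log x + 2) := by gcongr
  linarith

/-- composition of the terms -/
theorem tm_comp (s : Bool) (i j n : ℕ) (h0 : 0 < base s n) :
    tm s i (base s (tm s j (base s n))) = tm s (j + i) (base s n) := by
  obtain ⟨a, ha⟩ : ∃ a, a = base s n := ⟨_, rfl⟩
  rw [← ha] at h0 ⊢
  have h1 : 0 < 2 ^ j * a := by positivity
  cases s
  · unfold tm base
    simp only [Bool.false_eq_true, if_false]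
    rw [Nat.sub_add_cancel h1, pow_add]
    congr 1
    ring
  · unfold tm base
    simp only [if_true]
    rw [Nat.add_sub_cancel, pow_add]
    congr 1
    ring

/-- exact lengths -/
theorem exact_det (s : Bool) (Q : Set ℕ) (hfin : ∀ a : ℕ, 0 < a → ∃ i, tm s i a ∉ Q) (k : ℕ)
    (hlow : ∀ᶠ x : ℕ in atTop, ∃ a, x < a ∧ ∀ i < k, tm s i a ∈ Q) :
    {n | (∀ i < k, tm s i (base s n) ∈ Q) ∧ tm s k (base s n) ∉ Q}.Infinite := by
  classical
  rw [Set.infinite_iff_exists_gt]
  intro N
  obtain ⟨x, ⟨a, ha1, ha2⟩, hx⟩ := (hlow.and (eventually_ge_atTop (N + 2))).exists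
  obtain ⟨K, hK⟩ : ∃ K, K = Nat.find (hfin a (by omega)) := ⟨_, rfl⟩
  have hK1 : tm s K a ∉ Q := by rw [hK]; exact Nat.find_spec (hfin a (by omega))
  have hK2 : ∀ i < K, tm s i a ∈ Q := by
    intro i hi
    rw [hK] at hi
    have := Nat.find_min (hfin a (by omega)) hi
    simpa using this
  have hkK : k ≤ K := by
    by_contra hcon
    push Not at hcon
    exact hK1 (ha2 K hcon)
  obtain ⟨n₀, hn₀⟩ : ∃ n₀, base s n₀ = a := by
    cases s
    · exact ⟨a - 1, by unfold base; simp; omega⟩
    · exact ⟨a + 1, by unfold base; simp⟩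
  refine ⟨tm s (K - k) a, ⟨fun i hi => ?_, ?_⟩, ?_⟩
  · have h2 := tm_comp s i (K - k) n₀ (by omega)
    rw [hn₀] at h2
    rw [h2]
    exact hK2 _ (by omega)
  · have h2 := tm_comp s k (K - k) n₀ (by omega)
    rw [hn₀] at h2
    rw [h2, Nat.sub_add_cancel hkK]
    exact hK1
  · have := tm_ge s (K - k) a
    omega

end Pool.Agent.U839.Cc
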