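import Mathlib
import Pool.Agent.U839.Cc.Fin

set_option autoImplicit false

/-! # The longest Cunningham chain in random models: main theorems -/

open MeasureTheory ProbabilityTheory Filter Finset Topology

namespace Pool.Agent.U839.Cc

open Pool.Agent.U839.Thin (tlog)
open Pool.Agent.U839.Fb (tloglog borel)
open Pool.Agent.U839.Sv (fT Sieved)

/-- sieves up to `(log n)^(1 + o(1))` -/
theorem main1 {Ω : Type*} [MeasurableSpace Ω] {μ : Measure Ω} [IsProbabilityMeasure μ] (T : ℕ → ℕ) (hT : Monotone T)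
    (hT1 : ∀ δ : ℝ, 0 < δ → ∀ᶠ n : ℕ in atTop, (T n : ℝ) ≤ (Real.log n) ^ (1 + δ))
    {E : ℕ → Set Ω} (h : Sieved μ E T) (s : Bool) :
    ∀ᵐ ω ∂μ, Tendsto (fun X : ℕ => (LL s {n | ω ∈ E n} X : ℝ) * Real.log (Real.log X) / Real.log X) atTop (𝓝 1) := by
  have hT2 := hT1 1 one_pos
  have hlow : ∀ m : ℕ, ∀ᵐ ω ∂μ, ∀ᶠ x : ℕ in atTop, ∀ k : ℕ,
      (k : ℝ) * Real.log (Real.log x) ≤ (1 - 1 / ((m : ℝ) + 2)) * Real.log x →
      ∃ a, x < a ∧ a ≤ x + x ∧ ∀ i < k, ω ∈ E (tm s i a) := by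
    intro m
    obtain ⟨δ, hδ⟩ : ∃ δ : ℝ, δ = min (1 / 1000) (1 / ((m : ℝ) + 2) / 5) := ⟨_, rfl⟩
    have hδ0 : 0 < δ := by rw [hδ]; positivity
    have hδ1 : δ ≤ 1 / 1000 := by rw [hδ]; exact min_le_left _ _
    have hδ2 : δ ≤ 1 / ((m : ℝ) + 2) / 5 := by rw [hδ]; exact min_le_right _ _
    have hm : 1 / ((m : ℝ) + 2) < 1 := by
      have h0 : (0 : ℝ) ≤ m := Nat.cast_nonneg _
      rw [div_lt_one (by positivity)]
      linarith
    have hm0 : 0 < 1 / ((m : ℝ) + 2) := by positivity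
    apply low (1 + δ) (by linarith) δ hδ0 (by linarith) (1 - 1 / ((m : ℝ) + 2)) (by linarith) _ (by linarith)
      T hT (hT1 δ hδ0) h s
    have h1 : Real.log (1 + δ) ≤ δ := by
      have := Real.log_le_sub_one_of_pos (show (0 : ℝ) < 1 + δ by linarith)
      linarith
    have h2 : 0 ≤ Real.log (1 + δ) := Real.log_nonneg (by linarith)
    have h3 : 24 * (Real.log (1 + δ) + 8 * δ) * (1 + δ) ≤ 1 / 4 := by nlinarith
    have h4 : 0 ≤ 24 * (Real.log (1 + δ) + 8 * δ) * (1 + δ) := by positivity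
    calc 24 * (Real.log (1 + δ) + 8 * δ) * (1 + δ) * (1 - 1 / ((m : ℝ) + 2))
        ≤ 24 * (Real.log (1 + δ) + 8 * δ) * (1 + δ) * 1 := by gcongr; linarith
      _ ≤ 1 / 4 := by linarith
  have hup : ∀ m : ℕ, ∀ᵐ ω ∂μ, ∀ᶠ a : ℕ in atTop, ∀ k : ℕ, (∀ i < k, ω ∈ E (tm s i a)) →
      (k : ℝ) * Real.log (Real.log a) ≤ (1 + 1 / ((m : ℝ) + 2)) * Real.log a := fun m =>
    up (1 + 1) (by norm_num) T hT2 h s _ (by positivity)
  filter_upwards [ae_all_iff.2 hlow, ae_all_iff.2 hup, finite (1 + 1) (by norm_num) T hT2 h s, one_null h]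
    with ω g1 g2 g3 g4
  rw [Metric.tendsto_nhds]
  intro ε hε
  obtain ⟨m, hm⟩ := exists_nat_gt (4 / ε)
  have hm0 : 0 < (m : ℝ) + 2 := by positivity
  have hmε : 1 / ((m : ℝ) + 2) ≤ ε / 4 := by
    rw [div_lt_iff₀ hε] at hm
    rw [div_le_iff₀ hm0]
    linarith
  have hd : 0 < 1 / ((m : ℝ) + 2) := by positivity
  have hm1 : 1 / ((m : ℝ) + 2) < 1 := by
    have h0 : (0 : ℝ) ≤ m := Nat.cast_nonneg _
    rw [div_lt_one (by positivity)]
    linarith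
  filter_upwards [up_det s {n | ω ∈ E n} g3 g4 _ hd (g2 m),
    low_det s {n | ω ∈ E n} g3 g4 (1 - 1 / ((m : ℝ) + 2)) (by linarith) (ε / 4) (by positivity) (g1 m),
    tlog.eventually_gt_atTop 0] with X h1 h2 h3
  rw [Real.dist_eq, abs_lt]
  constructor
  · have : 1 - ε < (LL s {n | ω ∈ E n} X : ℝ) * Real.log (Real.log X) / Real.log X := by
      rw [lt_div_iff₀ h3]
      nlinarith
    linarith
  · have : (LL s {n | ω ∈ E n} X : ℝ) * Real.log (Real.log X) / Real.log X < 1 + ε := by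
      rw [div_lt_iff₀ h3]
      nlinarith
    linarith

/-- sieves up to `(log n)^θ` -/
theorem main2 (θ : ℝ) (hθ : 0 < θ) : ∃ c : ℝ, 0 < c ∧ ∀ (T : ℕ → ℕ), Monotone T →
    (∀ᶠ n : ℕ in atTop, (T n : ℝ) ≤ (Real.log n) ^ θ) →
    ∀ (Ω : Type*) [MeasurableSpace Ω] (μ : Measure Ω) [IsProbabilityMeasure μ] (E : ℕ → Set Ω), Sieved μ E T →
    ∀ s : Bool, ∀ᵐ ω ∂μ,
      (∀ᶠ X : ℕ in atTop, c ≤ (LL s {n | ω ∈ E n} X : ℝ) * Real.log (Real.log X) / Real.log X) ∧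
      (∀ ε : ℝ, 0 < ε → ∀ᶠ X : ℕ in atTop,
        (LL s {n | ω ∈ E n} X : ℝ) * Real.log (Real.log X) / Real.log X ≤ 1 + ε) ∧
      ∀ k : ℕ, {n | (∀ i < k, ω ∈ E (tm s i (base s n))) ∧ ω ∉ E (tm s k (base s n))}.Infinite := by
  obtain ⟨θ', hθ'⟩ : ∃ θ' : ℝ, θ' = max θ 1 := ⟨_, rfl⟩
  have hθ1 : 1 ≤ θ' := by rw [hθ']; exact le_max_right _ _
  have hθ2 : θ ≤ θ' := by rw [hθ']; exact le_max_left _ _
  have hl0 : 0 ≤ Real.log θ' := Real.log_nonneg hθ1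
  obtain ⟨c₀, hc₀⟩ : ∃ c₀ : ℝ, c₀ = min (1 / 2) (1 / (100 * (Real.log θ' + 1) * θ')) := ⟨_, rfl⟩
  have hc0 : 0 < c₀ := by rw [hc₀]; positivity
  have hc1 : c₀ ≤ 1 / 2 := by rw [hc₀]; exact min_le_left _ _
  have hc2 : (100 * (Real.log θ' + 1) * θ') * c₀ ≤ 1 := by
    have h1 : c₀ ≤ 1 / (100 * (Real.log θ' + 1) * θ') := by rw [hc₀]; exact min_le_right _ _
    rw [le_div_iff₀ (by positivity)] at h1
    linarith
  have hcond : 24 * (Real.log θ' + 8 * (1 / 1000)) * θ' * c₀ ≤ 1 / 4 := by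
    have h1 : 24 * (Real.log θ' + 8 * (1 / 1000)) ≤ 24 * (Real.log θ' + 1) := by linarith
    have h2 : 24 * (Real.log θ' + 8 * (1 / 1000)) * θ' * c₀ ≤ 24 * (Real.log θ' + 1) * θ' * c₀ := by gcongr
    nlinarith
  refine ⟨c₀ / 2, by positivity, fun T hT hTθ Ω _ μ _ E h s => ?_⟩
  have hTθ' : ∀ᶠ n : ℕ in atTop, (T n : ℝ) ≤ (Real.log n) ^ θ' := by
    filter_upwards [hTθ, tlog.eventually_ge_atTop 1] with n g1 g2
    exact g1.trans (Real.rpow_le_rpow_of_exponent_le g2 hθ2)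
  have hup : ∀ m : ℕ, ∀ᵐ ω ∂μ, ∀ᶠ a : ℕ in atTop, ∀ k : ℕ, (∀ i < k, ω ∈ E (tm s i a)) →
      (k : ℝ) * Real.log (Real.log a) ≤ (1 + 1 / ((m : ℝ) + 2)) * Real.log a := fun m =>
    up θ hθ T hTθ h s _ (by positivity)
  filter_upwards [low θ' hθ1 (1 / 1000) (by norm_num) (by norm_num) c₀ hc0 hcond (by linarith) T hT hTθ' h s,
    ae_all_iff.2 hup, finite θ hθ T hTθ h s, one_null h] with ω g1 g2 g3 g4
  refine ⟨?_, fun ε hε => ?_, fun k => ?_⟩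
  · filter_upwards [low_det s {n | ω ∈ E n} g3 g4 c₀ hc0 (c₀ / 2) (by positivity) g1,
      tlog.eventually_gt_atTop 0] with X h1 h2
    rw [le_div_iff₀ h2]
    linarith
  · obtain ⟨m, hm⟩ := exists_nat_gt (4 / ε)
    have hm0 : 0 < (m : ℝ) + 2 := by positivity
    have hmε : 1 / ((m : ℝ) + 2) ≤ ε / 4 := by
      rw [div_lt_iff₀ hε] at hm
      rw [div_le_iff₀ hm0]
      linarith
    have hd : 0 < 1 / ((m : ℝ) + 2) := by positivity
    filter_upwards [up_det s {n | ω ∈ E n} g3 g4 _ hd (g2 m), tlog.eventually_gt_atTop 0] with X h1 h3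
    rw [div_le_iff₀ h3]
    nlinarith
  · apply exact_det s {n | ω ∈ E n} g3 k
    filter_upwards [g1, tloglog.eventually (Pool.Agent.U839.Ru.mul_exp (k / c₀) 1 one_pos),
      tlog.eventually_gt_atTop 0] with x h1 h2 h3
    rw [one_mul, Real.exp_log h3] at h2
    have h4 : (k : ℝ) * Real.log (Real.log x) ≤ c₀ * Real.log x := by
      have h5 : (k : ℝ) / c₀ * Real.log (Real.log x) * c₀ ≤ Real.log x * c₀ := by gcongr
      have h6 : (k : ℝ) / c₀ * Real.log (Real.log x) * c₀ = k * Real.log (Real.log x) := by field_simp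
      linarith
    obtain ⟨a, ha1, -, ha3⟩ := h1 k h4
    exact ⟨a, ha1, ha3⟩

end Pool.Agent.U839.Cc
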